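import Pool.Agent.Q5.RN.Law

/-!
# The law of the rotated means at an arbitrary centre
-/

set_option autoImplicit false

open Filter Topology Set Complex
open Pool.Agent.TH942.ES (zv xv)
open Pool.Agent.W189.ML (grow)
open Pool.Agent.Q5.RN

namespace Pool.Agent.Q5.VA

variable {X : Type} {d : ℕ} {N : X → ℕ} {α : X → Fin d → ℂ} {F : ℂ → ℂ} {c : ℝ}

theorem loglog_tendsto : Tendsto (fun X : ℝ => Real.log (Real.log X)) atTop atTop :=
  Real.tendsto_log_atTop.comp Real.tendsto_log_atTop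

theorem quot_of_bdd {f : ℝ → ℂ} {r M : ℝ}
    (h : ∀ᶠ X : ℝ in atTop, ‖f X - r * (Real.log (Real.log X) : ℂ)‖ ≤ M) :
    Tendsto (fun X : ℝ => (f X).re / Real.log (Real.log X)) atTop (𝓝 r) := by
  rw [tendsto_iff_norm_sub_tendsto_zero]
  refine squeeze_zero' (g := fun X => M * (Real.log (Real.log X))⁻¹)
    (Eventually.of_forall fun X => norm_nonneg _) ?_ ?_
  · filter_upwards [h, loglog_tendsto.eventually (eventually_gt_atTop 0)] with X h5 h6
    have h7 : (f X).re / Real.log (Real.log X) - r =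
        (f X - r * (Real.log (Real.log X) : ℂ)).re * (Real.log (Real.log X))⁻¹ := by
      have : (f X - r * (Real.log (Real.log X) : ℂ)).re = (f X).re - r * Real.log (Real.log X) := by
        rw [Complex.sub_re, ← Complex.ofReal_mul, Complex.ofReal_re]
      rw [this]
      field_simp
    rw [h7, norm_mul, Real.norm_eq_abs, Real.norm_eq_abs, abs_inv, abs_of_pos h6]
    exact mul_le_mul_of_nonneg_right ((Complex.abs_re_le_norm _).trans h5) (inv_nonneg.2 h6.le)
  · have := loglog_tendsto.inv_tendsto_atTop.const_mul M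
    simpa using this

theorem quot_of_big {f : ℝ → ℂ} {c : ℝ} (hc : 0 < c)
    (h : ∀ᶠ X : ℝ in atTop, Real.exp (X ^ c) ≤ |(f X).re|) :
    Tendsto (fun X : ℝ => |(f X).re| / Real.log (Real.log X)) atTop atTop := by
  have h6 : Tendsto (fun X : ℝ => X ^ c / Real.log X) atTop atTop := by
    have h7 : (fun X : ℝ => Real.log X) =o[atTop] fun X => X ^ c := isLittleO_log_rpow_atTop hc
    have h8 : Tendsto (fun X : ℝ => Real.log X / X ^ c) atTop (𝓝[>] 0) := by
      rw [tendsto_nhdsWithin_iff]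
      refine ⟨h7.tendsto_div_nhds_zero, ?_⟩
      filter_upwards [eventually_gt_atTop 1] with X hX
      have := Real.log_pos hX
      have : (0 : ℝ) < X ^ c := Real.rpow_pos_of_pos (by linarith) _
      show (0 : ℝ) < _
      positivity
    have h9 := h8.inv_tendsto_nhdsGT_zero
    refine h9.congr fun X => ?_
    rw [Pi.inv_apply, inv_div]
  refine tendsto_atTop_mono' _ ?_ h6
  filter_upwards [h, eventually_ge_atTop (3 : ℝ), loglog_tendsto.eventually (eventually_gt_atTop 0)]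
    with X h10 h11 h12
  have h13 : 0 < Real.log X := Real.log_pos (by linarith)
  have h14 : Real.log (Real.log X) ≤ Real.log X :=
    (Real.log_le_sub_one_of_pos h13).trans (by linarith)
  have h15 : X ^ c ≤ |(f X).re| := by
    have := Real.add_one_le_exp (X ^ c)
    linarith
  have h16 : 0 ≤ X ^ c := Real.rpow_nonneg (by linarith) _
  calc X ^ c / Real.log X ≤ X ^ c / Real.log (Real.log X) := by gcongr
    _ ≤ _ := by gcongr

/-- `F` is a meromorphic continuation of the Euler product, with the centre `c` -/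
structure ExtAt (c : ℝ) (N : X → ℕ) (α : X → Fin d → ℂ) (F : ℂ → ℂ) : Prop where
  mero : ∀ z, MeromorphicAt F z
  prod : ∀ s : ℂ, c + 1 / 2 < s.re →
    HasProd (fun v => ∏ i, (1 - zv N α v i * xv N v (s - c))⁻¹) (F s)

/-- the direction `1 + iτ` is free: no zero and no pole on the open ray from `c` -/
def FreeAt (c : ℝ) (F : ℂ → ℂ) (τ : ℝ) : Prop :=
  ∀ x : ℝ, 0 < x → meromorphicOrderAt F (c + (1 + τ * I) * x) = 0

theorem order_shift (F : ℂ → ℂ) (c : ℝ) (w : ℂ) :
    meromorphicOrderAt (fun s => F (s + (c - 1))) w = meromorphicOrderAt F (w + (c - 1)) := by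
  have h1 : AnalyticAt ℂ (fun s : ℂ => s + (c - 1)) w := by fun_prop
  refine meromorphicOrderAt_comp_of_deriv_ne_zero (f := F) h1 ?_
  have h2 : HasDerivAt (fun s : ℂ => s + (c - 1)) 1 w := (hasDerivAt_id w).add_const _
  rw [h2.deriv]
  exact one_ne_zero

theorem ext_shift (h : ExtAt c N α F) : Ext N α fun s => F (s + (c - 1)) where
  mero := fun z => (h.mero _).comp_analyticAt (f := F) (g := fun s : ℂ => s + (c - 1))
    (by fun_prop)
  prod := fun s hs => by
    have h1 := h.prod (s + (c - 1)) (by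
      rw [add_re, sub_re, ofReal_re, one_re]
      linarith)
    refine h1.congr_fun fun v => Finset.prod_congr rfl fun i _ => ?_
    rw [show s + (c - 1) - c = s - 1 by ring]

theorem dir_eq (τ : ℝ) (x : ℂ) : dir τ * x = (1 + τ * I) * x := rfl

theorem free_shift (F : ℂ → ℂ) (c τ : ℝ) :
    FreeAt c F τ ↔ Free (fun s => F (s + (c - 1))) τ := by
  unfold FreeAt Free
  refine forall_congr' fun x => forall_congr' fun _ => ?_
  rw [order_shift, dir_eq, show 1 + (1 + τ * I) * x + (c - 1) = c + (1 + τ * I) * (x : ℂ) by ring]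

/-- **the law of the rotated means** -/
theorem numerical (E : CSys N α) (h : ExtAt c N α F) {W : ℝ → ℝ → ℂ}
    (hW : ∀ τ X, W τ X = cmean N α τ (Real.log X)) :
    (∀ B : ℝ, {τ : ℝ | |τ| ≤ B ∧ ¬ FreeAt c F τ}.Finite) ∧
    (∃ r : ℤ, meromorphicOrderAt F c = r ∧ ∀ τ : ℝ, FreeAt c F τ →
      ∃ M : ℝ, ∀ᶠ X : ℝ in atTop, ‖W τ X - r * Real.log (Real.log X)‖ ≤ M) ∧
    (∀ τ : ℝ, ¬ FreeAt c F τ → ∃ (x : ℝ) (m : ℤ), 0 < x ∧ m ≠ 0 ∧
      meromorphicOrderAt F (c + (1 + τ * I) * x) = m ∧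
      (∀ y : ℝ, x < y → meromorphicOrderAt F (c + (1 + τ * I) * y) = 0) ∧
      Tendsto (fun X : ℝ => W τ X / grow (x * Real.log X)) atTop (𝓝 m) ∧
      ∀ c < x, ∀ᶠ X : ℝ in atTop, Real.exp (X ^ c) ≤ |(W τ X).re|) ∧
    ∀ R : ℤ, List.TFAE [
      meromorphicOrderAt F c = R,
      ∃ (τ : ℝ) (X : ℕ → ℝ), Tendsto X atTop atTop ∧
        Tendsto (fun n => (W τ (X n)).re / Real.log (Real.log (X n))) atTop (𝓝 R),
      ∀ τ : ℝ, FreeAt c F τ →
        ∃ M : ℝ, ∀ᶠ X : ℝ in atTop, ‖W τ X - R * Real.log (Real.log X)‖ ≤ M] := by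
  have h' := ext_shift h
  have hfr := free_shift F c
  have hfin : ∀ B : ℝ, {τ : ℝ | |τ| ≤ B ∧ ¬ FreeAt c F τ}.Finite := by
    intro B
    simp only [hfr]
    exact E.not_free_finite h' B
  obtain ⟨r, hr'⟩ := E.exists_order h' 1
  have hr : meromorphicOrderAt F c = r := by
    rw [order_shift, show (1 : ℂ) + (c - 1) = c by ring] at hr'
    exact hr'
  have hfree : ∀ τ : ℝ, FreeAt c F τ →
      ∃ M : ℝ, ∀ᶠ X : ℝ in atTop, ‖W τ X - r * Real.log (Real.log X)‖ ≤ M := by
    intro τ hτ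
    obtain ⟨M, hM⟩ := E.free h' (τ := τ) ((hfr τ).1 hτ) hr'
    refine ⟨M, hM.mono fun X hX => ?_⟩
    rw [hW]
    exact hX
  have hblocked : ∀ τ : ℝ, ¬ FreeAt c F τ → ∃ (x : ℝ) (m : ℤ), 0 < x ∧ m ≠ 0 ∧
      meromorphicOrderAt F (c + (1 + τ * I) * x) = m ∧
      (∀ y : ℝ, x < y → meromorphicOrderAt F (c + (1 + τ * I) * y) = 0) ∧
      Tendsto (fun X : ℝ => W τ X / grow (x * Real.log X)) atTop (𝓝 m) ∧
      ∀ c < x, ∀ᶠ X : ℝ in atTop, Real.exp (X ^ c) ≤ |(W τ X).re| := by
    intro τ hτ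
    have hord : ∀ x : ℝ, meromorphicOrderAt (fun s => F (s + (c - 1))) (1 + dir τ * x) =
        meromorphicOrderAt F (c + (1 + τ * I) * x) := by
      intro x
      rw [order_shift, dir_eq,
        show 1 + (1 + τ * I) * x + (c - 1) = c + (1 + τ * I) * (x : ℂ) by ring]
    obtain ⟨x₀, h0, h1, hnz, hz⟩ := E.exists_last h' τ
    obtain ⟨m, hm⟩ := E.exists_order h' (1 + dir τ * x₀)
    have hx0 : 0 < x₀ := by
      rw [hfr] at hτ
      unfold Free at hτ
      push Not at hτ
      obtain ⟨y, hy, hyz⟩ := hτ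
      by_contra hc
      exact hyz (hnz y (by linarith))
    have hm0 : m ≠ 0 := by
      rcases hz with h2 | h2
      · exact absurd h2 hx0.ne'
      · intro h3
        rw [h3] at hm
        exact h2 hm
    obtain ⟨h2, h3⟩ := E.blocked h' τ hx0 h1 hm hm0 hnz
    simp only [hW]
    refine ⟨x₀, m, hx0, hm0, (hord x₀).symm.trans hm, fun y hy => (hord y).symm.trans (hnz y hy),
      h2, h3⟩
  have hexists : ∃ τ : ℝ, FreeAt c F τ := by
    by_contra hc
    push Not at hc
    have h1 := hfin 1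
    have h2 : {τ : ℝ | |τ| ≤ 1 ∧ ¬ FreeAt c F τ} = Set.Icc (-1) 1 := by
      ext τ
      simp only [Set.mem_ofPred_eq, Set.mem_Icc, ← abs_le]
      exact ⟨fun h => h.1, fun h => ⟨h, hc τ⟩⟩
    rw [h2] at h1
    exact (Set.Icc_infinite (by norm_num : (-1 : ℝ) < 1)) h1
  refine ⟨hfin, ⟨r, hr, hfree⟩, hblocked, fun R => ?_⟩
  tfae_have 1 → 3 := by
    intro h1 τ hτ
    have h2 : r = R := by
      rw [hr] at h1
      exact_mod_cast h1
    have h3 := hfree τ hτ
    rw [h2] at h3
    exact h3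
  tfae_have 3 → 2 := by
    intro h1
    obtain ⟨τ, hτ⟩ := hexists
    obtain ⟨M, hM⟩ := h1 τ hτ
    refine ⟨τ, fun n => n, tendsto_natCast_atTop_atTop, ?_⟩
    have h2 := quot_of_bdd (f := W τ) (r := R) (M := M) (by
      simpa using hM)
    exact h2.comp tendsto_natCast_atTop_atTop
  tfae_have 2 → 1 := by
    rintro ⟨τ, X, hX, h1⟩
    by_cases hτ : FreeAt c F τ
    · obtain ⟨M, hM⟩ := hfree τ hτ
      have h2 := (quot_of_bdd (f := W τ) (r := r) (M := M) (by simpa using hM)).comp hX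
      have h3 := tendsto_nhds_unique h2 h1
      rw [hr]
      have h4 : r = R := by exact_mod_cast h3
      rw [h4]
    · exfalso
      obtain ⟨x, m, hx, -, -, -, -, h2⟩ := hblocked τ hτ
      have h3 := (quot_of_big (half_pos hx) (h2 (x / 2) (by linarith))).comp hX
      have h4 := h1.abs
      refine not_tendsto_nhds_of_tendsto_atTop h3 _ (h4.congr' ?_)
      filter_upwards [hX.eventually (loglog_tendsto.eventually (eventually_gt_atTop 0))] with n hn
      simp only [Function.comp_apply]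
      rw [abs_div, abs_of_pos hn]
  tfae_finish

end Pool.Agent.Q5.VA
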