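import Pool.Agent.Q5.VA.Dat
import Pool.Agent.Q5.MS.RieszLaw

/-!
# The Riesz laws at an arbitrary centre, for systems of primes of a number field
-/

set_option autoImplicit false

open Filter Topology Complex NumberField IsDedekindDomain ComplexConjugate MeasureTheory Set

namespace Pool.Agent.Q5.VA

open Pool.Agent.TH942.ES (Sys zv xv cv LE)
open Pool.Agent.TH942.RZ (rzw)
open Pool.Agent.TH270.RS (Lw)
open Pool.Agent.Q5.MS (Sv)

variable {Y : Type} {e : ℕ} {M : Y → ℕ} {β : Y → Fin e → ℂ} {F : ℂ → ℂ} {c : ℝ}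

/-- `F` continues the Euler product to the half plane `Re s > c`, analytic there and at `c`, of moderate growth -/
def ModerateAt (c : ℝ) (M : Y → ℕ) (β : Y → Fin e → ℂ) (F : ℂ → ℂ) : Prop :=
  (∀ s : ℂ, c < s.re → DifferentiableAt ℂ F s) ∧ AnalyticAt ℂ F c ∧
  (∃ (C : ℝ) (κ : ℕ), ∀ s : ℂ, c < s.re →
    ‖F s‖ ≤ C * (1 + ‖s‖) ^ κ * (1 + 1 / (s.re - c)) ^ κ) ∧
  ∀ s : ℂ, c + 1 / 2 < s.re →
    HasProd (fun v => ∏ i, (1 - zv M β v i * xv M v (s - c))⁻¹) (F s)

theorem order_shift_ana {F : ℂ → ℂ} {c : ℂ} (h : AnalyticAt ℂ F c) {m : ℕ}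
    (hm : analyticOrderAt F c = m) : analyticOrderAt (fun z => F (c + z)) 0 = m := by
  have hga : AnalyticAt ℂ (fun z : ℂ => F (c + z)) 0 := by
    have h2 : AnalyticAt ℂ (fun z : ℂ => c + z) 0 := by fun_prop
    exact AnalyticAt.comp (f := fun z : ℂ => c + z) (by simpa using h) h2
  rw [h.analyticOrderAt_eq_natCast] at hm
  rw [hga.analyticOrderAt_eq_natCast]
  obtain ⟨g, hg, hg1, he⟩ := hm
  have ht : Tendsto (fun z : ℂ => c + z) (𝓝 0) (𝓝 c) := by
    have : Continuous fun z : ℂ => c + z := by fun_prop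
    simpa using this.tendsto 0
  refine ⟨fun z => g (c + z), ?_, by simpa using hg1, ?_⟩
  · have h2 : AnalyticAt ℂ (fun z : ℂ => c + z) 0 := by fun_prop
    exact AnalyticAt.comp (f := fun z : ℂ => c + z) (by simpa using hg) h2
  · filter_upwards [ht.eventually he] with s hs
    rw [hs, add_sub_cancel_left, sub_zero]

theorem mod_data (E : Sys M β) (hreal : ∀ v k, (∑ i, zv M β v i ^ k).im = 0)
    (hF : ModerateAt c M β F) :
    (∃ m : ℕ, analyticOrderAt F c = m) ∧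
    (∀ m : ℕ, analyticOrderAt F c = m → Lw M β (fun s => F (c + s)) m) ∧
    ∃ (C : ℝ) (κ : ℕ), ∀ s : ℂ, 0 < s.re →
      ‖F (c + s)‖ ≤ C * (1 + ‖s‖) ^ κ * (1 + 1 / s.re) ^ κ := by
  obtain ⟨hd, h1, ⟨C, κ, hg⟩, hL⟩ := hF
  have hprod : ∀ s : ℂ, 1 / 2 < s.re → F (c + s) = LE M β s := by
    intro s hs
    have h1 := hL (c + s) (by rw [Complex.add_re, Complex.ofReal_re]; linarith)
    simp only [add_sub_cancel_left] at h1
    exact h1.tprod_eq.symm
  have hana : ∀ s : ℂ, c < s.re → AnalyticAt ℂ F s := by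
    intro s hs
    have hU : IsOpen {s : ℂ | c < s.re} := isOpen_lt continuous_const Complex.continuous_re
    exact (DifferentiableOn.analyticOnNhd (fun z hz => (hd z hz).differentiableWithinAt) hU) s hs
  refine ⟨?_, fun m hm => ?_, ?_⟩
  · have hfin : analyticOrderAt F c ≠ ⊤ := by
      intro htop
      rw [analyticOrderAt_eq_top] at htop
      obtain ⟨ε, hε, hball⟩ := Metric.eventually_nhds_iff_ball.1 htop
      have hUc : Convex ℝ {s : ℂ | c < s.re} := convex_halfSpace_re_gt _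
      have a1 : AnalyticOnNhd ℂ F {s : ℂ | c < s.re} := fun s hs => hana s hs
      set z₀ : ℂ := c + ((ε / 2 : ℝ) : ℂ) with hz₀
      have hz₀re : c < z₀.re := by
        rw [hz₀, Complex.add_re, Complex.ofReal_re, Complex.ofReal_re]
        linarith
      have hz₀b : z₀ ∈ Metric.ball (c : ℂ) ε := by
        rw [Metric.mem_ball, dist_eq_norm, hz₀, add_sub_cancel_left, Complex.norm_real,
          Real.norm_eq_abs, abs_of_pos (half_pos hε)]
        linarith
      have h2 := a1.eqOn_of_preconnected_of_eventuallyEq (analyticOnNhd_const (v := (0 : ℂ)))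
        hUc.isPreconnected (show z₀ ∈ {s : ℂ | c < s.re} from hz₀re) (by
          filter_upwards [Metric.isOpen_ball.mem_nhds hz₀b] with s hs
          exact hball s hs)
      have h3 : F (c + 1) = 0 := h2 (show c < ((c : ℂ) + 1).re by
        rw [Complex.add_re, Complex.ofReal_re, Complex.one_re]
        linarith)
      have h4 := hprod 1 (by norm_num)
      have h5 := (E.LE_diff (s := 1) (by norm_num)).2
      rw [h3] at h4
      exact h5 h4.symm
    obtain ⟨p, hp⟩ := ENat.ne_top_iff_exists.1 hfin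
    exact ⟨p, hp.symm⟩
  · have hga : AnalyticAt ℂ (fun z : ℂ => F (c + z)) 0 := by
      have h2 : AnalyticAt ℂ (fun z : ℂ => c + z) 0 := by fun_prop
      exact AnalyticAt.comp (f := fun z : ℂ => c + z) (by simpa using h1) h2
    refine ⟨E, hreal, fun s hs => ?_, hprod, hga, order_shift_ana h1 hm⟩
    exact DifferentiableAt.comp s (f := fun s : ℂ => c + s)
      (hd (c + s) (by rw [Complex.add_re, Complex.ofReal_re]; linarith)) (by fun_prop)
  · refine ⟨|C| * (1 + |c|) ^ κ, κ, fun s hs => ?_⟩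
    have h2 := hg (c + s) (by rw [Complex.add_re, Complex.ofReal_re]; linarith)
    have h3 : (c + s).re - c = s.re := by rw [Complex.add_re, Complex.ofReal_re]; ring
    rw [h3] at h2
    have h4 : 1 + ‖c + s‖ ≤ (1 + |c|) * (1 + ‖s‖) := by
      have := norm_add_le (c : ℂ) s
      rw [Complex.norm_real, Real.norm_eq_abs] at this
      nlinarith [norm_nonneg s, abs_nonneg c]
    have h5 : 0 ≤ (1 + 1 / s.re) ^ κ := by positivity
    refine h2.trans ?_
    calc C * (1 + ‖c + s‖) ^ κ * (1 + 1 / s.re) ^ κ ≤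
          |C| * ((1 + |c|) * (1 + ‖s‖)) ^ κ * (1 + 1 / s.re) ^ κ := by
          refine mul_le_mul_of_nonneg_right ?_ h5
          exact mul_le_mul (le_abs_self _) (pow_le_pow_left₀ (by positivity) h4 κ) (by positivity)
            (abs_nonneg _)
      _ = _ := by rw [mul_pow]; ring

/-- **both Riesz laws** -/
theorem riesz_all (E : Sys M β) (hreal : ∀ v k, (∑ i, zv M β v i ^ k).im = 0)
    (hF : ModerateAt c M β F) {T : ℝ → ℝ → ℝ} (hT : ∀ k Y, 1 < Y → T k Y = Sv M β k Y) :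
    (∀ ρ : ℝ, List.TFAE [
      (∀ s : ℂ, c < s.re → F s ≠ 0) ∧ ∃ m : ℕ, ρ = m ∧ analyticOrderAt F c = m,
      ∀ k : ℝ, 0 < k → ∃ B : ℝ, ∀ᶠ Y : ℝ in atTop,
        |T k Y - ρ * Real.log (Real.log Y)| ≤ B,
      ∃ k : ℝ, 0 < k ∧
        Tendsto (fun Y : ℝ => T k Y / Real.log (Real.log Y)) atTop (𝓝 ρ)]) ∧
    (∀ ρ : ℝ, List.TFAE [
      (∀ s : ℂ, c < s.re → F s ≠ 0) ∧ ∃ m : ℕ, (m : ℝ) ≤ ρ ∧ analyticOrderAt F c = m,
      ∀ k : ℝ, 0 < k → ∃ B : ℝ, ∀ᶠ Y : ℝ in atTop,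
        T k Y ≤ ρ * Real.log (Real.log Y) + B,
      ∃ k : ℝ, 0 < k ∧ ∀ ε : ℝ, 0 < ε → ∀ᶠ Y : ℝ in atTop,
        T k Y ≤ (ρ + ε) * Real.log (Real.log Y)]) := by
  obtain ⟨⟨m, hm⟩, hLw, C, κ, hgrow⟩ := mod_data E hreal hF
  have H := hLw m hm
  have hnz : (∀ s : ℂ, c < s.re → F s ≠ 0) ↔ ∀ s : ℂ, 0 < s.re → F (c + s) ≠ 0 :=
    (zeros_shiftC F c).symm
  refine ⟨fun ρ => ?_, fun ρ => ?_⟩
  · have t := Pool.Agent.Q5.MS.riesz_law H hgrow ρ
    have h1 : ((∀ s : ℂ, c < s.re → F s ≠ 0) ∧ ∃ m : ℕ, ρ = m ∧ analyticOrderAt F c = m) ↔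
        ((∀ s : ℂ, 0 < s.re → F (c + s) ≠ 0) ∧ ρ = m) := by
      rw [hnz]
      refine and_congr_right fun _ => ⟨?_, fun h => ⟨m, h, hm⟩⟩
      rintro ⟨n, h2, h3⟩
      have : (n : ℕ∞) = m := by rw [← h3, hm]
      rw [h2]
      exact_mod_cast this
    have h2 : (∀ k : ℝ, 0 < k → ∃ B : ℝ, ∀ᶠ Y : ℝ in atTop,
        |T k Y - ρ * Real.log (Real.log Y)| ≤ B) ↔
        ∀ k : ℝ, 0 < k → ∃ B : ℝ, ∀ᶠ Y : ℝ in atTop,
          |Sv M β k Y - ρ * Real.log (Real.log Y)| ≤ B := by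
      refine forall_congr' fun k => imp_congr_right fun _ => exists_congr fun B =>
        eventually_congr ?_
      filter_upwards [eventually_gt_atTop 1] with Y hY
      rw [hT k Y hY]
    have h3 : (∃ k : ℝ, 0 < k ∧
        Tendsto (fun Y : ℝ => T k Y / Real.log (Real.log Y)) atTop (𝓝 ρ)) ↔
        ∃ k : ℝ, 0 < k ∧ Tendsto (fun Y : ℝ => Sv M β k Y /
          Real.log (Real.log Y)) atTop (𝓝 ρ) := by
      refine exists_congr fun k => and_congr_right fun _ => tendsto_congr' ?_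
      filter_upwards [eventually_gt_atTop 1] with Y hY
      rw [hT k Y hY]
    rw [h1, h2, h3]
    exact t
  · have t := Pool.Agent.Q5.MS.riesz_upper H hgrow ρ
    have h1 : ((∀ s : ℂ, c < s.re → F s ≠ 0) ∧
        ∃ m : ℕ, (m : ℝ) ≤ ρ ∧ analyticOrderAt F c = m) ↔
        ((∀ s : ℂ, 0 < s.re → F (c + s) ≠ 0) ∧ (m : ℝ) ≤ ρ) := by
      rw [hnz]
      refine and_congr_right fun _ => ⟨?_, fun h => ⟨m, h, hm⟩⟩
      rintro ⟨n, h2, h3⟩
      have h4 : (n : ℕ∞) = m := by rw [← h3, hm]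
      have h5 : n = m := by exact_mod_cast h4
      rwa [← h5]
    have h2 : (∀ k : ℝ, 0 < k → ∃ B : ℝ, ∀ᶠ Y : ℝ in atTop,
        T k Y ≤ ρ * Real.log (Real.log Y) + B) ↔
        ∀ k : ℝ, 0 < k → ∃ B : ℝ, ∀ᶠ Y : ℝ in atTop,
          Sv M β k Y ≤ ρ * Real.log (Real.log Y) + B := by
      refine forall_congr' fun k => imp_congr_right fun _ => exists_congr fun B =>
        eventually_congr ?_
      filter_upwards [eventually_gt_atTop 1] with Y hY
      rw [hT k Y hY]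
    have h3 : (∃ k : ℝ, 0 < k ∧ ∀ ε : ℝ, 0 < ε → ∀ᶠ Y : ℝ in atTop,
        T k Y ≤ (ρ + ε) * Real.log (Real.log Y)) ↔
        ∃ k : ℝ, 0 < k ∧ ∀ ε : ℝ, 0 < ε → ∀ᶠ Y : ℝ in atTop,
          Sv M β k Y ≤ (ρ + ε) * Real.log (Real.log Y) := by
      refine exists_congr fun k => and_congr_right fun _ => forall_congr' fun ε =>
        imp_congr_right fun _ => eventually_congr ?_
      filter_upwards [eventually_gt_atTop 1] with Y hY
      rw [hT k Y hY]
    rw [h1, h2, h3]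
    exact t

end Pool.Agent.Q5.VA
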