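import Pool.Agent.Q5.VA.Dat
import Pool.Agent.TH942.ES.StarExt
import Pool.Agent.TH270.SH.Law

/-!
# Euler products of varieties, with an arbitrary real vertex to the right of the central point
-/

set_option autoImplicit false

open Filter Topology Complex NumberField IsDedekindDomain ComplexConjugate MeasureTheory Set

namespace Pool.Agent.Q5.VA

open Pool.Agent.TH942.ES (Sys zv xv cv nf_sys cP LE)
open Pool.Agent.TH942.SL (Sect)
open Pool.Agent.H921R2.TatePole (nm two_le_nm)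
open Pool.Agent.TH958.BV (IsFrobenius)
open Pool.Agent.TH270.SH (ZF Size)

variable {K : Type} [Field K] [NumberField K] {n : ℕ} {X : Set (MvPolynomial (Fin n) (𝓞 K))}
  {d N : ℕ} {S : Finset (HeightOneSpectrum (𝓞 K))} {i : ℕ}
  {α : HeightOneSpectrum (𝓞 K) → Fin N → ℂ} {σ : ℝ}

/-- the eigenvalues, with the vertex `σ` -/
noncomputable def aV (σ : ℝ) (S : Finset (HeightOneSpectrum (𝓞 K)))
    (α : HeightOneSpectrum (𝓞 K) → Fin N → ℂ) (v : {v : HeightOneSpectrum (𝓞 K) // v ∉ S})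
    (j : Fin N) : ℂ := α v.1 j * (((nm v.1 : ℝ) ^ (1 / 2 - σ) : ℝ) : ℂ)

theorem zV_eq (v : {v : HeightOneSpectrum (𝓞 K) // v ∉ S}) (j : Fin N) :
    zv (NS S) (aV σ S α) v j = α v.1 j * (((nm v.1 : ℝ) ^ (-σ) : ℝ) : ℂ) := by
  have hp2 : (2 : ℝ) ≤ nm v.1 := by exact_mod_cast two_le_nm v.1
  have hq : (0 : ℝ) < nm v.1 := by linarith
  unfold zv aV
  rw [mul_div_assoc, ← Complex.ofReal_div, Real.sqrt_eq_rpow, ← Real.rpow_sub hq]
  congr 4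
  ring

/-- the `L`-function -/
noncomputable def Lf (S : Finset (HeightOneSpectrum (𝓞 K)))
    (α : HeightOneSpectrum (𝓞 K) → Fin N → ℂ) (s : ℂ) : ℂ :=
  ∏' v : {v : HeightOneSpectrum (𝓞 K) // v ∉ S}, (∏ j, (1 - α v.1 j * (nm v.1 : ℂ) ^ (-s)))⁻¹

/-- the local factors -/
theorem factorV (σ : ℝ) (v : {v : HeightOneSpectrum (𝓞 K) // v ∉ S}) (s : ℂ) :
    ∏ j, (1 - zv (NS S) (aV σ S α) v j * xv (NS S) v (s - σ))⁻¹ =
      (∏ j, (1 - α v.1 j * (nm v.1 : ℂ) ^ (-s)))⁻¹ := by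
  have hp2 : (2 : ℝ) ≤ nm v.1 := by exact_mod_cast two_le_nm v.1
  have hq : (0 : ℝ) < nm v.1 := by linarith
  have hqc : (nm v.1 : ℂ) ≠ 0 := by exact_mod_cast hq.ne'
  rw [Finset.prod_inv_distrib]
  congr 1
  refine Finset.prod_congr rfl fun j _ => ?_
  rw [zV_eq, mul_assoc]
  congr 2
  have h1 : xv (NS S) v (s - σ) = (nm v.1 : ℂ) ^ (-(s - σ)) := by
    unfold xv
    rw [Complex.cpow_def_of_ne_zero hqc, ← Complex.ofReal_natCast, ← Complex.ofReal_log hq.le]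
    congr 1
    ring
  have h2 : (((nm v.1 : ℝ) ^ (-σ) : ℝ) : ℂ) = (nm v.1 : ℂ) ^ (-(σ : ℂ)) := by
    rw [Complex.ofReal_cpow hq.le]
    push_cast
    rfl
  rw [h1, h2, ← Complex.cpow_add _ _ hqc]
  congr 1
  ring

theorem lf_eq (σ : ℝ) (S : Finset (HeightOneSpectrum (𝓞 K)))
    (α : HeightOneSpectrum (𝓞 K) → Fin N → ℂ) (s : ℂ) :
    Lf S α s = LE (NS S) (aV σ S α) (s - σ) := by
  unfold Lf Pool.Agent.TH942.ES.LE
  exact tprod_congr fun v => (factorV σ v s).symm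

/-- the terms of the sum over the prime powers -/
theorem cP_V (p : {v : HeightOneSpectrum (𝓞 K) // v ∉ S} × ℕ) :
    cP (NS S) (aV σ S α) p = (∑ j, α p.1.1 j ^ (p.2 + 1)).re /
      (((p.2 : ℝ) + 1) * ((nm p.1.1 : ℝ) ^ σ) ^ (p.2 + 1)) := by
  have hp2 : (2 : ℝ) ≤ nm p.1.1 := by exact_mod_cast two_le_nm p.1.1
  have hq : (0 : ℝ) < nm p.1.1 := by linarith
  have h0 : 0 < (nm p.1.1 : ℝ) ^ σ := Real.rpow_pos_of_pos hq _
  have h1 : ∑ j, zv (NS S) (aV σ S α) p.1 j ^ (p.2 + 1) =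
      (∑ j, α p.1.1 j ^ (p.2 + 1)) * ((((nm p.1.1 : ℝ) ^ σ) ^ (p.2 + 1))⁻¹ : ℝ) := by
    rw [Finset.sum_mul]
    refine Finset.sum_congr rfl fun j _ => ?_
    rw [zV_eq, mul_pow, Real.rpow_neg hq.le, ← Complex.ofReal_pow, inv_pow]
  unfold cP
  rw [h1, Complex.re_mul_ofReal]
  field_simp

namespace Frob

variable (h : Frob X d i S α)
include h

theorem ltV (hσ : ((i : ℝ) + 1) / 2 ≤ σ) (v : {v : HeightOneSpectrum (𝓞 K) // v ∉ S})
    (j : Fin N) : ‖α v.1 j * (((nm v.1 : ℝ) ^ (-σ) : ℝ) : ℂ)‖ < 1 := by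
  have hp2 : (2 : ℝ) ≤ nm v.1 := by exact_mod_cast two_le_nm v.1
  have hq : (0 : ℝ) < nm v.1 := by linarith
  have h0 : 0 < (nm v.1 : ℝ) ^ (-σ) := Real.rpow_pos_of_pos hq _
  rw [norm_mul, frob_norm (h v.1 v.2) j, Complex.norm_real, Real.norm_of_nonneg h0.le,
    ← Real.rpow_add hq]
  refine Real.rpow_lt_one_of_one_lt_of_neg (by linarith) ?_
  linarith

theorem normV (hσ : ((i : ℝ) + 1) / 2 ≤ σ) (v : {v : HeightOneSpectrum (𝓞 K) // v ∉ S})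
    (j : Fin N) : ‖aV σ S α v j‖ ≤ 1 := by
  have hp2 : (2 : ℝ) ≤ nm v.1 := by exact_mod_cast two_le_nm v.1
  have hq : (0 : ℝ) < nm v.1 := by linarith
  have h0 : 0 < (nm v.1 : ℝ) ^ (1 / 2 - σ) := Real.rpow_pos_of_pos hq _
  unfold aV
  rw [norm_mul, frob_norm (h v.1 v.2) j, Complex.norm_real, Real.norm_of_nonneg h0.le,
    ← Real.rpow_add hq]
  exact Real.rpow_le_one_of_one_le_of_nonpos (by linarith) (by linarith)

theorem log_imV (hi : i ≤ 2 * d) (hσ : ((i : ℝ) + 1) / 2 ≤ σ)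
    (v : {v : HeightOneSpectrum (𝓞 K) // v ∉ S}) :
    (∑ j, log (1 - zv (NS S) (aV σ S α) v j)).im = 0 := by
  simp only [zV_eq]
  refine sum_im hi (h v.1 v.2) (f := fun z => log (1 - z *
    (((nm v.1 : ℝ) ^ (-σ) : ℝ) : ℂ))) fun j => ?_
  have h1 := h.ltV hσ v j
  have h2 : (1 - α v.1 j * (((nm v.1 : ℝ) ^ (-σ) : ℝ) : ℂ)).arg ≠ Real.pi := by
    intro h3
    rw [Complex.arg_eq_pi_iff] at h3
    have h4 := (abs_le.1 (Complex.abs_re_le_norm (α v.1 j *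
      (((nm v.1 : ℝ) ^ (-σ) : ℝ) : ℂ)))).2
    have h5 := h3.1
    rw [Complex.sub_re, Complex.one_re] at h5
    linarith
  have h3 : 1 - conj (α v.1 j) * (((nm v.1 : ℝ) ^ (-σ) : ℝ) : ℂ) =
      conj (1 - α v.1 j * (((nm v.1 : ℝ) ^ (-σ) : ℝ) : ℂ)) := by
    rw [map_sub, map_one, map_mul, Complex.conj_ofReal]
  rw [h3, Complex.log_conj _ h2]

/-- **the Euler system with the vertex `σ`** -/
theorem sysV (hi : i ≤ 2 * d) (hσ : ((i : ℝ) + 1) / 2 ≤ σ) : Sys (NS S) (aV σ S α) :=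
  nf_sys (fun v => v ∉ S) (aV σ S α) (h.normV hσ) fun v => h.log_imV hi hσ v

theorem realV (hi : i ≤ 2 * d) (v : {v : HeightOneSpectrum (𝓞 K) // v ∉ S}) (k : ℕ) :
    (∑ j, zv (NS S) (aV σ S α) v j ^ k).im = 0 := by
  simp only [zV_eq]
  refine sum_im hi (h v.1 v.2) (f := fun z => (z *
    (((nm v.1 : ℝ) ^ (-σ) : ℝ) : ℂ)) ^ k) fun j => ?_
  rw [map_pow, map_mul, Complex.conj_ofReal]

/-- the logarithm of the local factor at the vertex -/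
theorem cvV (hσ : ((i : ℝ) + 1) / 2 ≤ σ) (v : {v : HeightOneSpectrum (𝓞 K) // v ∉ S}) :
    cv (NS S) (aV σ S α) v = Real.log ‖∏ j, (1 - α v.1 j * (nm v.1 : ℂ) ^ (-(σ : ℂ)))‖ := by
  have hp2 : (2 : ℝ) ≤ nm v.1 := by exact_mod_cast two_le_nm v.1
  have h2 : (((nm v.1 : ℝ) ^ (-σ) : ℝ) : ℂ) = (nm v.1 : ℂ) ^ (-(σ : ℂ)) := by
    rw [Complex.ofReal_cpow (by linarith)]
    push_cast
    rfl
  have hne : ∀ j, 1 - α v.1 j * (((nm v.1 : ℝ) ^ (-σ) : ℝ) : ℂ) ≠ 0 := by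
    intro j h0
    have h1 := h.ltV hσ v j
    rw [← sub_eq_zero.1 h0, norm_one] at h1
    exact lt_irrefl _ h1
  rw [← h2]
  unfold cv
  rw [norm_prod, Real.log_prod (fun j _ => norm_ne_zero_iff.2 (hne j)), Complex.re_sum]
  refine Finset.sum_congr rfl fun j _ => ?_
  rw [zV_eq, Complex.log_re]

/-- the `L`-function in the half plane of absolute convergence -/
theorem lf_diff (hi : i ≤ 2 * d) {s : ℂ} (hs : (i : ℝ) / 2 + 1 < s.re) :
    DifferentiableAt ℂ (Lf S α) s ∧ Lf S α s ≠ 0 := by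
  have E := h.sysV hi (σ := ((i : ℝ) + 1) / 2) le_rfl
  have h1 : (1 : ℝ) / 2 < (s - (((i : ℝ) + 1) / 2 : ℝ)).re := by
    rw [Complex.sub_re, Complex.ofReal_re]
    linarith
  obtain ⟨h2, h3⟩ := E.LE_diff h1
  have h4 : Lf S α = fun s => LE (NS S) (aV (((i : ℝ) + 1) / 2) S α)
      (s - (((i : ℝ) + 1) / 2 : ℝ)) := funext fun s => lf_eq _ S α s
  rw [h4]
  exact ⟨DifferentiableAt.comp s (f := fun s : ℂ => s - (((i : ℝ) + 1) / 2 : ℝ)) h2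
    (by fun_prop), h3⟩

theorem lf_prod (hi : i ≤ 2 * d) {s : ℂ} (hs : (i : ℝ) / 2 + 1 < s.re) :
    HasProd (fun v : {v : HeightOneSpectrum (𝓞 K) // v ∉ S} =>
      (∏ j, (1 - α v.1 j * (nm v.1 : ℂ) ^ (-s)))⁻¹) (Lf S α s) := by
  have E := h.sysV hi (σ := ((i : ℝ) + 1) / 2) le_rfl
  have h1 : (1 : ℝ) / 2 < (s - (((i : ℝ) + 1) / 2 : ℝ)).re := by
    rw [Complex.sub_re, Complex.ofReal_re]
    linarith
  have h2 := (E.hasProd h1).multipliable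
  have h3 : (fun v => ∏ j, (1 - zv (NS S) (aV (((i : ℝ) + 1) / 2) S α) v j *
      xv (NS S) v (s - (((i : ℝ) + 1) / 2 : ℝ)))⁻¹) =
      fun v : {v : HeightOneSpectrum (𝓞 K) // v ∉ S} =>
        (∏ j, (1 - α v.1 j * (nm v.1 : ℂ) ^ (-s)))⁻¹ := funext fun v => factorV _ v s
  rw [h3] at h2
  exact h2.hasProd

/-- two continuations agree -/
theorem agree_on (hi : i ≤ 2 * d) (hσ : ((i : ℝ) + 1) / 2 ≤ σ) {U : Set ℂ} (hUo : IsOpen U)
    (hUc : Convex ℝ U) (hUr : ∀ x : ℝ, σ < x → (x : ℂ) ∈ U) {G : ℂ → ℂ}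
    (hG : ZF (NS S) (aV σ S α) {s | σ + s ∈ U} G) :
    ∀ s ∈ U, (i : ℝ) / 2 + 1 < s.re → Lf S α s = G (s - σ) := by
  intro s hs hs2
  set W : Set ℂ := U ∩ {s : ℂ | (i : ℝ) / 2 + 1 < s.re} with hW
  have hWo : IsOpen W := hUo.inter (isOpen_lt continuous_const Complex.continuous_re)
  have hWc : Convex ℝ W := hUc.inter (convex_halfSpace_re_gt _)
  have a1 : AnalyticOnNhd ℂ (Lf S α) W :=
    DifferentiableOn.analyticOnNhd (fun z hz => (h.lf_diff hi hz.2).1.differentiableWithinAt) hWo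
  have a2 : AnalyticOnNhd ℂ (fun z => G (z - σ)) W := by
    refine DifferentiableOn.analyticOnNhd (fun z hz => ?_) hWo
    have h1 : z - σ ∈ {s : ℂ | (σ : ℂ) + s ∈ U} := by
      rw [Set.mem_ofPred_eq, add_sub_cancel]
      exact hz.1
    exact (DifferentiableAt.comp z (f := fun s : ℂ => s - σ) (hG.1 _ (Or.inl h1)).1
      (by fun_prop)).differentiableWithinAt
  have hx : ((σ + 1 : ℝ) : ℂ) ∈ W := ⟨hUr _ (by linarith), by
    change (i : ℝ) / 2 + 1 < ((σ + 1 : ℝ) : ℂ).re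
    rw [Complex.ofReal_re]
    linarith⟩
  have ho : IsOpen {z : ℂ | σ + 1 / 2 < z.re} := isOpen_lt continuous_const Complex.continuous_re
  have h3 := a1.eqOn_of_preconnected_of_eventuallyEq a2 hWc.isPreconnected hx (by
    filter_upwards [ho.mem_nhds (show σ + 1 / 2 < ((σ + 1 : ℝ) : ℂ).re by
      rw [Complex.ofReal_re]
      linarith)] with z hz
    have hz' : σ + 1 / 2 < z.re := hz
    rw [lf_eq σ, hG.2 _ (by rw [Complex.sub_re, Complex.ofReal_re]; linarith)])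
  exact h3 ⟨hs, hs2⟩

/-- translation of zero-free continuations -/
theorem zf_up (hi : i ≤ 2 * d) (hσ : ((i : ℝ) + 1) / 2 ≤ σ) {U : Set ℂ} (hUo : IsOpen U)
    (hUc : Convex ℝ U) (hUr : ∀ x : ℝ, σ < x → (x : ℂ) ∈ U) {G : ℂ → ℂ}
    (hG : ZF (NS S) (aV σ S α) {s | σ + s ∈ U} G) :
    ∃ F : ℂ → ℂ, (∀ s : ℂ, s ∈ U ∨ (i : ℝ) / 2 + 1 < s.re → DifferentiableAt ℂ F s ∧ F s ≠ 0) ∧
      (∀ s : ℂ, (i : ℝ) / 2 + 1 < s.re → F s = Lf S α s) ∧ ∀ s ∈ U, F s = G (s - σ) := by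
  have hag := h.agree_on hi hσ hUo hUc hUr hG
  set F : ℂ → ℂ := fun s => if (i : ℝ) / 2 + 1 < s.re then Lf S α s else G (s - σ) with hF
  have hF1 : ∀ s : ℂ, (i : ℝ) / 2 + 1 < s.re → F s = Lf S α s := fun s hs => by
    rw [hF]
    simp only
    rw [if_pos hs]
  have hF2 : ∀ s ∈ U, F s = G (s - σ) := fun s hs => by
    by_cases h2 : (i : ℝ) / 2 + 1 < s.re
    · rw [hF1 s h2, hag s hs h2]
    · rw [hF]
      simp only
      rw [if_neg h2]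
  refine ⟨F, fun s hs => ?_, hF1, hF2⟩
  rcases hs with hs | hs
  · have h1 : s - σ ∈ {s : ℂ | (σ : ℂ) + s ∈ U} := by
      rw [Set.mem_ofPred_eq, add_sub_cancel]
      exact hs
    obtain ⟨h2, h3⟩ := hG.1 _ (Or.inl h1)
    refine ⟨?_, by rw [hF2 s hs]; exact h3⟩
    refine DifferentiableAt.congr_of_eventuallyEq (f := fun s => G (s - σ))
      (DifferentiableAt.comp s (f := fun s : ℂ => s - σ) h2 (by fun_prop)) ?_
    filter_upwards [hUo.mem_nhds hs] with z hz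
    exact hF2 z hz
  · have ho : IsOpen {z : ℂ | (i : ℝ) / 2 + 1 < z.re} :=
      isOpen_lt continuous_const Complex.continuous_re
    obtain ⟨h1, h2⟩ := h.lf_diff hi hs
    refine ⟨h1.congr_of_eventuallyEq ?_, by rw [hF1 s hs]; exact h2⟩
    filter_upwards [ho.mem_nhds hs] with z hz
    exact hF1 z hz

omit h in
theorem zf_down (hσ : ((i : ℝ) + 1) / 2 ≤ σ) {U : Set ℂ} {F : ℂ → ℂ}
    (h1 : ∀ s : ℂ, s ∈ U ∨ (i : ℝ) / 2 + 1 < s.re → DifferentiableAt ℂ F s ∧ F s ≠ 0)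
    (h2 : ∀ s : ℂ, (i : ℝ) / 2 + 1 < s.re → F s = Lf S α s) :
    ZF (NS S) (aV σ S α) {s | σ + s ∈ U} fun s => F (σ + s) := by
  refine ⟨fun s hs => ?_, fun s hs => ?_⟩
  · have h3 : σ + s ∈ U ∨ (i : ℝ) / 2 + 1 < (σ + s).re := by
      rcases hs with hs | hs
      · exact Or.inl hs
      · right
        rw [Complex.add_re, Complex.ofReal_re]
        linarith
    obtain ⟨h4, h5⟩ := h1 _ h3
    exact ⟨DifferentiableAt.comp s (f := fun s : ℂ => σ + s) h4 (by fun_prop), h5⟩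
  · show F (σ + s) = _
    rw [h2 _ (by rw [Complex.add_re, Complex.ofReal_re]; linarith), lf_eq σ,
      add_sub_cancel_left]

end Frob

/-- the sector with the vertex `σ` -/
def SectAt (σ ρ : ℝ) : Set ℂ := {s | s ≠ σ ∧ |arg (s - σ)| < Real.pi / (2 * ρ)}

theorem sectAt_eq (σ ρ : ℝ) : {s : ℂ | σ + s ∈ SectAt σ ρ} = Sect ρ := by
  ext s
  unfold SectAt Sect
  simp only [Set.mem_ofPred_eq, add_sub_cancel_left, ne_eq, add_eq_left]

theorem mem_sectAt {σ ρ : ℝ} {s : ℂ} : s ∈ SectAt σ ρ ↔ s - σ ∈ Sect ρ := by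
  rw [← sectAt_eq σ ρ, Set.mem_ofPred_eq, add_sub_cancel]

theorem sectAt_open {σ ρ : ℝ} (hρ : 1 ≤ ρ) : IsOpen (SectAt σ ρ) := by
  have h1 : SectAt σ ρ = (fun s : ℂ => s - σ) ⁻¹' Sect ρ := by
    ext s
    exact mem_sectAt
  rw [h1]
  exact (Pool.Agent.TH942.ES.sect_open' hρ).preimage (by fun_prop)

theorem sectAt_convex {σ ρ : ℝ} (hρ : 1 ≤ ρ) : Convex ℝ (SectAt σ ρ) := by
  have h1 : SectAt σ ρ = (fun s : ℂ => s + (-σ)) ⁻¹' Sect ρ := by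
    ext s
    rw [mem_sectAt, sub_eq_add_neg]
    rfl
  rw [h1]
  exact (Pool.Agent.TH942.ES.sect_convex' hρ).translate_preimage_left _

theorem sectAt_real {σ ρ : ℝ} (hρ : 1 ≤ ρ) {x : ℝ} (hx : σ < x) : (x : ℂ) ∈ SectAt σ ρ := by
  rw [mem_sectAt, ← Complex.ofReal_sub]
  exact Pool.Agent.TH942.ES.sect_real' hρ (by linarith)

theorem half_eq (σ : ℝ) : {s : ℂ | (σ : ℂ) + s ∈ {s : ℂ | σ < s.re}} = {s | 0 < s.re} := by
  ext s
  simp

end Pool.Agent.Q5.VA
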